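import Pool.Agent.Helper70.HS.Stmts

/-!
COVER: efficient dyadic covers above the Hausdorff dimension.
-/

namespace Pool.Agent.Helper2.HS

open Finset MeasureTheory Metric
open scoped ENNReal NNReal MeasureTheory
open Pool.Agent.Helper69.RK (CH cel Yt ht Sys mass)
open Pool.Agent.Helper70.HS

/-- the level of a set of diameter `D` -/
theorem cover_level (d ε : ℝ) (hd : 0 < d) (hε : 0 < ε) (n0 : ℕ) (D : ℝ≥0∞)
    (hD : D ≤ ENNReal.ofReal ((1 / 2 : ℝ) ^ n0)) :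
    ∃ k : ℕ, n0 ≤ k ∧ D ≤ ENNReal.ofReal ((1 / 2 : ℝ) ^ k) ∧
      ENNReal.ofReal ((2 : ℝ) ^ (-(d * (k : ℝ)))) ≤
        ENNReal.ofReal ((2 : ℝ) ^ d) * D ^ d + ENNReal.ofReal ε := by
  by_cases h0 : D = 0
  · -- a very large level
    have h1 : (2 : ℝ) ^ (-d) < 1 := Real.rpow_lt_one_of_one_lt_of_neg (by norm_num) (by linarith)
    obtain ⟨k, hk⟩ := exists_pow_lt_of_lt_one hε h1
    refine ⟨max n0 k, le_max_left _ _, by rw [h0]; exact bot_le, ?_⟩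
    refine le_trans ?_ le_add_self
    apply ENNReal.ofReal_le_ofReal
    have h2 : (2 : ℝ) ^ (-(d * ((max n0 k : ℕ) : ℝ))) ≤ (2 : ℝ) ^ (-(d * (k : ℝ))) := by
      apply Real.rpow_le_rpow_of_exponent_le (by norm_num)
      have : (k : ℝ) ≤ ((max n0 k : ℕ) : ℝ) := by exact_mod_cast le_max_right _ _
      nlinarith
    have h3 : (2 : ℝ) ^ (-(d * (k : ℝ))) = ((2 : ℝ) ^ (-d)) ^ k := by
      rw [← Real.rpow_natCast, ← Real.rpow_mul (by norm_num)]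
      ring_nf
    rw [h3] at h2
    exact h2.trans hk.le
  · have hDtop : D ≠ ∞ := ne_top_of_le_ne_top ENNReal.ofReal_ne_top hD
    set δ : ℝ := D.toReal with hδ
    have hδ0 : 0 < δ := ENNReal.toReal_pos h0 hDtop
    have hDδ : D = ENNReal.ofReal δ := (ENNReal.ofReal_toReal hDtop).symm
    have hδ1 : δ ≤ (1 / 2 : ℝ) ^ n0 := by
      rw [hDδ] at hD
      exact (ENNReal.ofReal_le_ofReal_iff (by positivity)).1 hD
    have hδ2 : δ ≤ 1 := hδ1.trans (pow_le_one₀ (by norm_num) (by norm_num))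
    obtain ⟨k, hk1, hk2⟩ := exists_nat_pow_near_of_lt_one hδ0 hδ2 (by norm_num : (0 : ℝ) < 1 / 2)
      (by norm_num)
    refine ⟨k, ?_, ?_, ?_⟩
    · by_contra h
      have h1 : k + 1 ≤ n0 := by omega
      have h2 : (1 / 2 : ℝ) ^ n0 ≤ (1 / 2 : ℝ) ^ (k + 1) :=
        pow_le_pow_of_le_one (by norm_num) (by norm_num) h1
      linarith
    · rw [hDδ]
      exact ENNReal.ofReal_le_ofReal hk2
    · refine le_trans ?_ le_self_add
      rw [hDδ, ENNReal.ofReal_rpow_of_pos hδ0, ← ENNReal.ofReal_mul (by positivity)]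
      apply ENNReal.ofReal_le_ofReal
      rw [← Real.mul_rpow (by norm_num) hδ0.le]
      have h1 : (2 : ℝ) ^ (-(d * (k : ℝ))) = ((1 / 2 : ℝ) ^ k) ^ d := by
        rw [← Real.rpow_natCast (1 / 2 : ℝ) k, ← Real.rpow_mul (by norm_num), one_div,
          Real.inv_rpow (by norm_num), ← Real.rpow_neg (by norm_num)]
        ring_nf
      rw [h1]
      apply Real.rpow_le_rpow (by positivity) _ hd.le
      have : (1 / 2 : ℝ) ^ (k + 1) = (1 / 2 : ℝ) ^ k / 2 := by rw [pow_succ]; ring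
      rw [this] at hk1
      linarith

theorem cover_floor (a b : ℝ) (h : |a - b| ≤ 1) : 0 ≤ ⌊a⌋ - ⌊b⌋ + 1 ∧ ⌊a⌋ - ⌊b⌋ + 1 < 3 := by
  rw [abs_le] at h
  constructor
  · have h1 : ⌊b⌋ ≤ ⌊a + 1⌋ := Int.floor_le_floor (by linarith)
    rw [Int.floor_add_one] at h1
    omega
  · have h1 : ⌊a⌋ ≤ ⌊b + 1⌋ := Int.floor_le_floor (by linarith)
    rw [Int.floor_add_one] at h1
    omega

theorem st_COVER : ST_COVER := by
  intro M d E hd hE n0
  have hH : μH[d] E = 0 := by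
    have h1 : dimH E < ((d.toNNReal : ℝ≥0) : ℝ≥0∞) := hE
    have h2 := hausdorffMeasure_of_dimH_lt h1
    rwa [Real.coe_toNNReal d hd.le] at h2
  set ε : ℝ := 1 / ((3 : ℝ) ^ M * ((2 : ℝ) ^ d + 1)) with hε
  have h2d : (0 : ℝ) < (2 : ℝ) ^ d := by positivity
  have hε0 : 0 < ε := by positivity
  set r : ℝ≥0∞ := ENNReal.ofReal ((1 / 2 : ℝ) ^ n0) with hr
  have hr0 : 0 < r := ENNReal.ofReal_pos.2 (by positivity)
  rw [Measure.hausdorffMeasure_apply] at hH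
  have hinf : (⨅ (t : ℕ → Set (Fin M → ℝ)) (_ : E ⊆ ⋃ n, t n) (_ : ∀ n, ediam (t n) ≤ r),
      ∑' n, ⨆ _ : (t n).Nonempty, ediam (t n) ^ d) < ENNReal.ofReal ε := by
    have h1 : (⨅ (t : ℕ → Set (Fin M → ℝ)) (_ : E ⊆ ⋃ n, t n) (_ : ∀ n, ediam (t n) ≤ r),
      ∑' n, ⨆ _ : (t n).Nonempty, ediam (t n) ^ d) ≤ 0 := by
      rw [← hH]
      exact le_iSup₂ (α := ℝ≥0∞) (f := fun (r : ℝ≥0∞) (_ : 0 < r) =>
        ⨅ (t : ℕ → Set (Fin M → ℝ)) (_ : E ⊆ ⋃ n, t n) (_ : ∀ n, ediam (t n) ≤ r),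
          ∑' n, ⨆ _ : (t n).Nonempty, ediam (t n) ^ d) r hr0
    exact lt_of_le_of_lt h1 (ENNReal.ofReal_pos.2 hε0)
  simp only [iInf_lt_iff] at hinf
  obtain ⟨t, ht1, ht2, ht3⟩ := hinf
  have hsup : ∀ n, (⨆ _ : (t n).Nonempty, ediam (t n) ^ d) = ediam (t n) ^ d := by
    intro n
    by_cases hn : (t n).Nonempty
    · simp [hn]
    · rw [Set.not_nonempty_iff_eq_empty] at hn
      simp [hn, hd]
  simp only [hsup] at ht3
  choose k hk1 hk2 hk3 using fun n => cover_level d (ε / 2 / 2 ^ n) hd (by positivity) n0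
    (ediam (t n)) (ht2 n)
  -- centres
  have hx : ∀ n, ∃ x : Fin M → ℝ, (t n).Nonempty → x ∈ t n := by
    intro n
    by_cases hn : (t n).Nonempty
    · obtain ⟨x, hx⟩ := hn
      exact ⟨x, fun _ => hx⟩
    · exact ⟨0, fun h => absurd h hn⟩
  choose x0 hx0 using hx
  let F : ℕ × (Fin M → Fin 3) → ℕ × (Fin M → ℤ) := fun p =>
    (k p.1, fun i => ⌊(2 : ℝ) ^ (k p.1) * x0 p.1 i⌋ + ((p.2 i : ℕ) : ℤ) - 1)
  refine ⟨Set.range F, ?_, ?_, ?_⟩
  · intro x hxE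
    obtain ⟨n, hn⟩ := Set.mem_iUnion.1 (ht1 hxE)
    refine ⟨k n, ?_⟩
    have hx0n : x0 n ∈ t n := hx0 n ⟨x, hn⟩
    have hdist : dist x (x0 n) ≤ (1 / 2 : ℝ) ^ (k n) := by
      have h1 : edist x (x0 n) ≤ ENNReal.ofReal ((1 / 2 : ℝ) ^ (k n)) :=
        (edist_le_ediam_of_mem hn hx0n).trans (hk2 n)
      rw [edist_dist] at h1
      exact (ENNReal.ofReal_le_ofReal_iff (by positivity)).1 h1
    have hi : ∀ i, |(2 : ℝ) ^ (k n) * x i - (2 : ℝ) ^ (k n) * x0 n i| ≤ 1 := by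
      intro i
      have h1 : |x i - x0 n i| ≤ (1 / 2 : ℝ) ^ (k n) := by
        have := (dist_le_pi_dist x (x0 n) i).trans hdist
        rwa [Real.dist_eq] at this
      rw [← mul_sub, abs_mul, abs_of_pos (by positivity : (0 : ℝ) < (2 : ℝ) ^ (k n))]
      calc (2 : ℝ) ^ (k n) * |x i - x0 n i| ≤ (2 : ℝ) ^ (k n) * (1 / 2 : ℝ) ^ (k n) := by gcongr
        _ = 1 := by rw [← mul_pow]; norm_num
    have hfl := fun i => cover_floor _ _ (hi i)
    refine ⟨(n, fun i => ⟨(⌊(2 : ℝ) ^ (k n) * x i⌋ - ⌊(2 : ℝ) ^ (k n) * x0 n i⌋ + 1).toNat, ?_⟩), ?_⟩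
    · have := hfl i
      omega
    · simp only [F, Prod.mk.injEq, true_and]
      funext i
      change _ = ⌊(2 : ℝ) ^ (k n) * x i⌋
      have h1 := (hfl i).1
      have h2 : (((⌊(2 : ℝ) ^ (k n) * x i⌋ - ⌊(2 : ℝ) ^ (k n) * x0 n i⌋ + 1).toNat : ℕ) : ℤ) =
        ⌊(2 : ℝ) ^ (k n) * x i⌋ - ⌊(2 : ℝ) ^ (k n) * x0 n i⌋ + 1 := Int.toNat_of_nonneg h1
      rw [h2]
      ring
  · rintro p ⟨q, rfl⟩
    exact hk1 q.1
  · unfold wQ
    have hs1 : (∑' p : Set.range F, ENNReal.ofReal ((2 : ℝ) ^ (-(d * (p.1.1 : ℝ))))) ≤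
        ∑' q : ℕ × (Fin M → Fin 3), ENNReal.ofReal ((2 : ℝ) ^ (-(d * (k q.1 : ℝ)))) := by
      have := ENNReal.tsum_le_tsum_comp_of_surjective (f := Set.rangeFactorization F)
        Set.rangeFactorization_surjective
        (fun p : Set.range F => ENNReal.ofReal ((2 : ℝ) ^ (-(d * (p.1.1 : ℝ)))))
      exact this
    refine hs1.trans ?_
    rw [ENNReal.tsum_prod (f := fun (n : ℕ) (_ : Fin M → Fin 3) =>
      ENNReal.ofReal ((2 : ℝ) ^ (-(d * (k n : ℝ)))))]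
    simp only [tsum_fintype, Finset.sum_const, Finset.card_univ, Fintype.card_pi, Fintype.card_fin,
      Finset.prod_const, nsmul_eq_mul]
    rw [ENNReal.tsum_mul_left]
    have hs2 : ∑' n, ENNReal.ofReal ((2 : ℝ) ^ (-(d * (k n : ℝ)))) ≤
        ENNReal.ofReal ((2 : ℝ) ^ d) * ENNReal.ofReal ε + ENNReal.ofReal ε := by
      refine (ENNReal.tsum_le_tsum hk3).trans ?_
      rw [ENNReal.tsum_add, ENNReal.tsum_mul_left]
      have hg : ∑' n : ℕ, ENNReal.ofReal (ε / 2 / 2 ^ n) = ENNReal.ofReal ε := by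
        rw [← ENNReal.ofReal_tsum_of_nonneg (fun n => by positivity) (summable_geometric_two' ε),
          tsum_geometric_two']
      rw [hg]
      gcongr
    refine (mul_le_mul_right hs2 _).trans ?_
    have e1 : ((3 ^ M : ℕ) : ℝ≥0∞) = ENNReal.ofReal ((3 : ℝ) ^ M) := by
      rw [ENNReal.ofReal_pow (by norm_num)]
      simp
    rw [e1, ← ENNReal.ofReal_mul (by positivity), ← ENNReal.ofReal_add (by positivity) hε0.le,
      ← ENNReal.ofReal_mul (by positivity)]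
    have e2 : (3 : ℝ) ^ M * ((2 : ℝ) ^ d * ε + ε) = 1 := by
      rw [hε]
      field_simp
    rw [e2]
    simp

end Pool.Agent.Helper2.HS
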